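import Pool.Agent.Helper54.DT.StmtsH

/-! Module SSRM: the formula for a sum of square roots. -/

namespace Pool.Agent.Helper45.DCT

open Finset Pool.Agent.Helper54.ETR Pool.Agent.Helper54.Poly Pool.Agent.Helper54.DI
open Pool.Agent.Helper54.DT

private lemma ssrm_nbT (x : ℕ → ℝ) (b : List Bool) : (nbT b).eval x = (bvl b : ℝ) := by
  induction b with
  | nil => simp [nbT, bvl, Term.eval]
  | cons c l ih =>
    cases c <;> simp only [nbT, bvl, Term.eval, ih, if_true, if_false, Bool.false_eq_true] <;>
      push_cast <;> ring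

private lemma ssrm_nbT_deg (b : List Bool) : (nbT b).deg ∅ = 0 := by
  induction b with
  | nil => simp [nbT, Term.deg]
  | cons c l ih =>
    cases c <;> simp [nbT, Term.deg, ih]

private lemma ssrm_nu (x : ℕ → ℝ) (n : ℕ) : (nuO oT n).eval x = (n : ℝ) := by
  induction n with
  | zero => simp [nuO, oT, Term.eval]
  | succ n ih =>
    have : (nuO oT (n + 1)) = Term.add (nuO oT n) Term.one := rfl
    rw [this, Term.eval, ih]
    simp [Term.eval]

private lemma ssrm_nu_deg (n : ℕ) : (nuO oT n).deg ∅ = 0 := by
  induction n with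
  | zero => simp [nuO, oT, Term.deg]
  | succ n ih =>
    have : (nuO oT (n + 1)) = Term.add (nuO oT n) Term.one := rfl
    rw [this, Term.deg, ih]
    simp [Term.deg]

private lemma ssrm_T (x : ℕ → ℝ) (b : List Bool) (i : ℕ) :
    (ssrT b i).eval x = 3 * ((bvl b : ℝ) * x i) - (bvl b : ℝ) ^ 2 * (x i) ^ 3 := by
  simp only [ssrT, Term.eval, ssrm_nbT, ssrm_nu]
  push_cast
  ring

private lemma ssrm_T_deg (b : List Bool) (i : ℕ) : (ssrT b i).deg ∅ = 3 := by
  simp [ssrT, Term.deg, ssrm_nbT_deg, ssrm_nu_deg]

private lemma ssrm_sum (x : ℕ → ℝ) (l : List Term) :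
    (sumO oT l).eval x = (l.map (fun t => t.eval x)).sum := by
  induction l with
  | nil => simp [sumO, oT, Term.eval]
  | cons t l ih =>
    have : sumO oT (t :: l) = Term.add t (sumO oT l) := rfl
    rw [this, Term.eval, ih]
    simp

private lemma ssrm_sum_deg (l : List Term) (h : ∀ t ∈ l, t.deg ∅ = 3) :
    (sumO oT l).deg ∅ = 0 ∨ (sumO oT l).deg ∅ = 3 := by
  induction l with
  | nil => left; simp [sumO, oT, Term.deg]
  | cons t l ih =>
    have h0 : sumO oT (t :: l) = Term.add t (sumO oT l) := rfl
    right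
    rw [h0, Term.deg, h t (by simp)]
    rcases ih (fun s hs => h s (by simp [hs])) with h1 | h1 <;> rw [h1] <;> rfl

private lemma ssrm_holds (x : ℕ → ℝ) (l : List ℕ) (ψ : Form) :
    (l.foldr (fun i φ => Form.and (Form.ge (Term.var i) Term.zero) φ) ψ).Holds x ↔
      (∀ i ∈ l, 0 ≤ x i) ∧ ψ.Holds x := by
  induction l with
  | nil => simp
  | cons i l ih =>
    rw [List.foldr_cons, Form.Holds, ih]
    simp only [Form.Holds, Term.eval, List.mem_cons, forall_eq_or_imp, ge_iff_le]
    tauto

private lemma ssrm_atoms (l : List ℕ) (ψ : Form) :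
    (l.foldr (fun i φ => Form.and (Form.ge (Term.var i) Term.zero) φ) ψ).atoms =
      l.map (fun i => (Term.var i, Term.zero)) ++ ψ.atoms := by
  induction l with
  | nil => simp
  | cons i l ih =>
    rw [List.foldr_cons, Form.atoms, ih]
    simp [Form.atoms]

private lemma ssrm_list (bs : List (List Bool)) :
    (List.range bs.length).map (fun i => bs.getD i []) = bs := by
  apply List.ext_getElem
  · simp
  · intro i h1 h2
    simp [h2]

private lemma ssrm_ineq (a z : ℝ) (ha : 0 ≤ a) (hz : 0 ≤ z) :
    3 * (a * z) - a ^ 2 * z ^ 3 ≤ 2 * √a := by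
  obtain ⟨s, hs, rfl⟩ : ∃ s : ℝ, 0 ≤ s ∧ a = s ^ 2 := ⟨√a, Real.sqrt_nonneg a, (Real.sq_sqrt ha).symm⟩
  rw [Real.sqrt_sq hs]
  have h : 0 ≤ s * (s * z - 1) ^ 2 * (s * z + 2) := by positivity
  nlinarith

private lemma ssrm_eq (a : ℝ) (ha : 0 ≤ a) :
    3 * (a * (√a)⁻¹) - a ^ 2 * ((√a)⁻¹) ^ 3 = 2 * √a := by
  obtain ⟨s, hs, rfl⟩ : ∃ s : ℝ, 0 ≤ s ∧ a = s ^ 2 := ⟨√a, Real.sqrt_nonneg a, (Real.sq_sqrt ha).symm⟩
  rw [Real.sqrt_sq hs]
  rcases eq_or_lt_of_le hs with h | h
  · rw [← h]; simp
  · field_simp
    ring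

theorem st_SSRM : ST_SSRM := by
  intro bs B
  constructor
  · constructor
    · intro h
      refine ⟨fun i => (√(bvl (bs.getD i []) : ℝ))⁻¹, ?_⟩
      rw [ssrF, ssrm_holds]
      refine ⟨fun i _ => by positivity, ?_⟩
      simp only [Form.Holds, Term.eval, ssrm_sum, ssrm_nu, ssrm_nbT, List.map_map, ge_iff_le]
      have h2 : ((List.range bs.length).map ((fun t : Term => t.eval
          (fun i => (√(bvl (bs.getD i []) : ℝ))⁻¹)) ∘ fun i => ssrT (bs.getD i []) i)).sum =
          2 * (bs.map fun b => √(bvl b : ℝ)).sum := by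
        have h3 : ((List.range bs.length).map ((fun t : Term => t.eval
            (fun i => (√(bvl (bs.getD i []) : ℝ))⁻¹)) ∘ fun i => ssrT (bs.getD i []) i)) =
            ((List.range bs.length).map (fun i => 2 * √(bvl (bs.getD i []) : ℝ))) := by
          apply List.map_congr_left
          intro i _
          simp only [Function.comp, ssrm_T]
          exact ssrm_eq _ (Nat.cast_nonneg _)
        rw [h3, List.sum_map_mul_left]
        have h4 : ((List.range bs.length).map (fun i => √(bvl (bs.getD i []) : ℝ))) =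
            bs.map fun b => √(bvl b : ℝ) := by
          have := congrArg (List.map fun b => √(bvl b : ℝ)) (ssrm_list bs)
          rw [List.map_map] at this
          exact this
        rw [h4]
      rw [h2]
      push_cast
      linarith
    · rintro ⟨x, hx⟩
      rw [ssrF, ssrm_holds] at hx
      obtain ⟨h0, h1⟩ := hx
      simp only [Form.Holds, Term.eval, ssrm_sum, ssrm_nu, ssrm_nbT, List.map_map,
        ge_iff_le] at h1
      have h4 : ((List.range bs.length).map (fun i => √(bvl (bs.getD i []) : ℝ))) =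
          bs.map fun b => √(bvl b : ℝ) := by
        have := congrArg (List.map fun b => √(bvl b : ℝ)) (ssrm_list bs)
        rw [List.map_map] at this
        exact this
      have h2 : ((List.range bs.length).map ((fun t : Term => t.eval x) ∘
          fun i => ssrT (bs.getD i []) i)).sum ≤
          ((List.range bs.length).map (fun i => 2 * √(bvl (bs.getD i []) : ℝ))).sum := by
        apply List.sum_le_sum
        intro i hi
        simp only [Function.comp, ssrm_T]
        exact ssrm_ineq _ _ (Nat.cast_nonneg _) (h0 i hi)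
      rw [List.sum_map_mul_left, h4] at h2
      push_cast at h1
      linarith
  · have hex : ∃ A : Term × Term, (atomDeg ∅ A = 0 ∨ atomDeg ∅ A = 3) ∧ (ssrF bs B).atoms =
        (List.range bs.length).map (fun i => (Term.var i, Term.zero)) ++ [A] := by
      refine ⟨(sumO oT ((List.range bs.length).map fun i => ssrT (bs.getD i []) i),
          Term.mul (nuO oT 2) (nbT B)), ?_, ?_⟩
      · have h2 : (Term.mul (nuO oT 2) (nbT B)).deg ∅ = 0 := by
          rw [Term.deg, ssrm_nu_deg, ssrm_nbT_deg]
        simp only [atomDeg, h2, Nat.max_zero]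
        apply ssrm_sum_deg
        intro t ht
        rw [List.mem_map] at ht
        obtain ⟨i, _, rfl⟩ := ht
        exact ssrm_T_deg _ _
      · rw [ssrF, ssrm_atoms]
        rfl
    obtain ⟨A, hd, hat⟩ := hex
    have hl : ∀ (p : Term × Term → Bool), (∀ i, p (Term.var i, Term.zero) = false) →
        ((List.range bs.length).map (fun i => (Term.var i, Term.zero))).countP p = 0 := by
      intro p hp
      rw [List.countP_eq_zero]
      intro a ha
      rw [List.mem_map] at ha
      obtain ⟨i, _, rfl⟩ := ha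
      simp [hp i]
    have hv : ∀ i, atomDeg ∅ (Term.var i, Term.zero) = 1 := by
      intro i
      simp [atomDeg, Term.deg]
    refine ⟨?_, ?_, ?_⟩
    · rw [hat, List.countP_append, hl _ (by intro i; simp [hv i])]
      rcases hd with h | h <;> simp [h]
    · rw [hat, List.countP_append, hl _ (by intro i; simp [hv i])]
      rcases hd with h | h <;> simp [h]
    · rw [hat, List.countP_append, hl _ (by intro i; simp [hv i])]
      rcases hd with h | h <;> simp [h]

end Pool.Agent.Helper45.DCT
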